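import Pool.Agent.Helper71.SN.Goals

/-! MP_9b2a83_an, packet BAD : few maps have a position sharing `L + 1` digits with many points. -/

set_option autoImplicit false

namespace Pool.Agent.Helper71.SN.PkBAD

open Pool.Agent.Helper71.SN Pool.Agent.Helper39.Net Finset

/-- the union bound over the sets of `m` indices -/
theorem card_many {κ S : Type} [Fintype κ] [Fintype S] [DecidableEq κ] [DecidableEq S] (Q : Finset S) (m : ℕ) :
    (univ.filter fun F : κ → S => m ≤ (univ.filter fun k : κ => F k ∈ Q).card).card ≤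
      if m ≤ Fintype.card κ then
        (Fintype.card κ * Q.card) ^ m * Fintype.card S ^ (Fintype.card κ - m) else 0 := by
  split_ifs with hm
  · have hsub : (univ.filter fun F : κ → S => m ≤ (univ.filter fun k : κ => F k ∈ Q).card) ⊆
        (powersetCard m (univ : Finset κ)).biUnion
          (fun A => Fintype.piFinset (fun k => if k ∈ A then Q else univ)) := by
      intro F hF
      rw [mem_filter] at hF
      obtain ⟨A, hA, hAm⟩ := Finset.exists_subset_card_eq hF.2
      rw [mem_biUnion]
      refine ⟨A, ?_, ?_⟩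
      · rw [mem_powersetCard]
        exact ⟨Finset.subset_univ _, hAm⟩
      · rw [Fintype.mem_piFinset]
        intro k
        by_cases hk : k ∈ A
        · rw [if_pos hk]
          exact (mem_filter.1 (hA hk)).2
        · rw [if_neg hk]
          exact mem_univ _
    refine (card_le_card hsub).trans (card_biUnion_le.trans ?_)
    have h1 : ∀ A ∈ powersetCard m (univ : Finset κ),
        (Fintype.piFinset (fun k => if k ∈ A then Q else univ)).card =
          Q.card ^ m * Fintype.card S ^ (Fintype.card κ - m) := by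
      intro A hA
      rw [mem_powersetCard] at hA
      rw [Fintype.card_piFinset]
      have h2 : ∀ k ∈ (univ : Finset κ), (if k ∈ A then Q else univ).card =
          if k ∈ A then Q.card else Fintype.card S := by
        intro k _
        split_ifs
        · rfl
        · rw [card_univ]
      rw [Finset.prod_congr rfl h2, Finset.prod_ite, prod_const, prod_const]
      have h3 : (univ.filter (fun k => k ∈ A)) = A := by
        ext k
        simp
      have h4 : (univ.filter (fun k => k ∉ A)).card = Fintype.card κ - m := by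
        have h5 : (univ.filter (fun k => k ∉ A)) = univ \ A := by
          ext k
          simp
        rw [h5, card_sdiff_of_subset (subset_univ _), card_univ, hA.2]
      rw [h3, h4, hA.2]
    rw [Finset.sum_congr rfl h1, sum_const, card_powersetCard, card_univ, smul_eq_mul, mul_pow]
    have h6 : (Fintype.card κ).choose m ≤ Fintype.card κ ^ m := Nat.choose_le_pow _ _
    calc (Fintype.card κ).choose m * (Q.card ^ m * Fintype.card S ^ (Fintype.card κ - m))
        ≤ Fintype.card κ ^ m * (Q.card ^ m * Fintype.card S ^ (Fintype.card κ - m)) :=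
          Nat.mul_le_mul_right _ h6
      _ = _ := by ring
  · rw [Nat.le_zero, card_eq_zero, filter_eq_empty_iff]
    intro F _ h
    exact hm (h.trans ((card_le_card (filter_subset _ _)).trans (by rw [card_univ])))

/-- the number of the elements of a cell -/
theorem card_cell (h : G_CNT2) (b L j : ℕ) (hb : 1 ≤ b) (hj : j ≤ L + 1)
    (t : Fin (b ^ (L + 1))) :
    (univ.filter fun t' : Fin (b ^ (L + 1)) => j ≤ agr b (L + 1) t' t).card =
      b ^ (L + 1 - j) := by
  rw [← h b (L + 1) j t hb hj t.2]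
  refine Finset.card_bij (fun t' _ => t'.val) ?_ ?_ ?_
  · intro t' ht'
    rw [mem_filter] at ht' ⊢
    refine ⟨mem_range.2 t'.2, ?_⟩
    rw [agr_comm]
    exact ht'.2
  · intro a _ a' _ haa
    exact Fin.ext haa
  · intro a ha
    rw [mem_filter, mem_range] at ha
    refine ⟨⟨a, ha.1⟩, ?_, rfl⟩
    rw [mem_filter]
    refine ⟨mem_univ _, ?_⟩
    rw [agr_comm]
    exact ha.2

/-- the number of the positions sharing `L + 1` digits with a given one -/
theorem card_Q (h : G_CNT2) (k b L : ℕ) (hb : 1 ≤ b) (s : Fin (k + 1) → Fin (b ^ (L + 1))) :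
    (univ.filter fun z : Fin (k + 1) → Fin (b ^ (L + 1)) =>
      L + 1 ≤ ∑ c, agr b (L + 1) (z c) (s c)).card ≤ (L + 2) ^ k * b ^ ((L + 1) * k) := by
  let R : (Fin k → Fin (L + 2)) → Finset (Fin (k + 1) → Fin (b ^ (L + 1))) := fun a =>
    Fintype.piFinset (Fin.cons
      (univ.filter fun t : Fin (b ^ (L + 1)) => (L + 1) - ∑ i, (a i).val ≤ agr b (L + 1) t (s 0))
      (fun i => univ.filter fun t : Fin (b ^ (L + 1)) => (a i).val ≤ agr b (L + 1) t (s i.succ)))
  have hsub : (univ.filter fun z : Fin (k + 1) → Fin (b ^ (L + 1)) =>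
      L + 1 ≤ ∑ c, agr b (L + 1) (z c) (s c)) ⊆ univ.biUnion R := by
    intro z hz
    rw [mem_filter] at hz
    rw [mem_biUnion]
    refine ⟨fun i => ⟨agr b (L + 1) (z i.succ) (s i.succ), ?_⟩, mem_univ _, ?_⟩
    · have := agr_le b (L + 1) (z i.succ) (s i.succ)
      omega
    · rw [Fintype.mem_piFinset]
      intro c
      refine Fin.cases ?_ (fun i => ?_) c
      · rw [Fin.cons_zero, mem_filter]
        refine ⟨mem_univ _, ?_⟩
        have h1 := hz.2
        rw [Fin.sum_univ_succ] at h1
        change (L + 1) - ∑ i : Fin k, agr b (L + 1) (z i.succ) (s i.succ) ≤ _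
        omega
      · rw [Fin.cons_succ, mem_filter]
        exact ⟨mem_univ _, le_refl _⟩
  have hR : ∀ a ∈ (univ : Finset (Fin k → Fin (L + 2))), (R a).card ≤ b ^ ((L + 1) * k) := by
    intro a _
    have h1 : (R a).card = b ^ (L + 1 - ((L + 1) - ∑ i, (a i).val)) *
        ∏ i, b ^ (L + 1 - (a i).val) := by
      change (Fintype.piFinset _).card = _
      rw [Fintype.card_piFinset, Fin.prod_univ_succ, Fin.cons_zero]
      rw [card_cell h b L _ hb (Nat.sub_le _ _) (s 0)]
      congr 1
      refine Finset.prod_congr rfl fun i _ => ?_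
      rw [Fin.cons_succ]
      exact card_cell h b L _ hb (by have := (a i).2; omega) (s i.succ)
    rw [h1, Finset.prod_pow_eq_pow_sum, ← pow_add]
    refine Nat.pow_le_pow_right hb ?_
    have h2 : ∑ i, (L + 1 - (a i).val) + ∑ i, (a i).val = (L + 1) * k := by
      rw [← Finset.sum_add_distrib]
      have h3 : ∀ i ∈ (univ : Finset (Fin k)), L + 1 - (a i).val + (a i).val = L + 1 := by
        intro i _
        have := (a i).2
        omega
      rw [Finset.sum_congr rfl h3, sum_const, card_univ, Fintype.card_fin, smul_eq_mul, mul_comm]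
    omega
  calc _ ≤ (univ.biUnion R).card := card_le_card hsub
    _ ≤ ∑ a, (R a).card := card_biUnion_le
    _ ≤ ∑ a : Fin k → Fin (L + 2), b ^ ((L + 1) * k) := Finset.sum_le_sum hR
    _ = (L + 2) ^ k * b ^ ((L + 1) * k) := by
      rw [sum_const, card_univ, smul_eq_mul]
      congr 1
      simp

/-- positions -/
abbrev Sp (k b L : ℕ) := Fin (k + 1) → Fin (b ^ (L + 1))

theorem card_Sp (k b L : ℕ) : Fintype.card (Sp k b L) = b ^ ((L + 1) * (k + 1)) := by
  rw [Fintype.card_fun, Fintype.card_fin, Fintype.card_fin, ← pow_mul]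

theorem thm : G_CNT2 → G_BAD := by
  intro hc d b L hd hL hb
  obtain ⟨k, rfl⟩ : ∃ k, d = k + 1 := ⟨d - 1, by omega⟩
  have hk : 1 ≤ k := by omega
  have hb1 : 1 ≤ b := by
    refine le_trans ?_ hb
    exact Nat.one_le_pow _ _ (by omega)
  have hScard : Fintype.card (Sp k b L) = b ^ ((L + 1) * (k + 1)) := card_Sp k b L
  set h : ℕ := 2 * L + (L + 1) * (k + 1) with hh
  have h2h : 2 * h ≤ 6 * (k + 1) * L := by
    have e1 : 2 * h = 4 * L + 2 * ((L + 1) * (k + 1)) := by rw [hh]; ring
    have e2 : (L + 1) * (k + 1) = L * (k + 1) + (k + 1) := by ring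
    have e3 : k + 1 ≤ L * (k + 1) := Nat.le_mul_of_pos_left _ (by omega)
    have e4 : 2 * L ≤ L * (k + 1) := by
      rw [mul_comm 2 L]
      exact Nat.mul_le_mul_left _ (by omega)
    have e5 : 6 * (k + 1) * L = 6 * (L * (k + 1)) := by ring
    rw [e1, e2, e5]
    omega
  -- the bound for one position
  have hone : ∀ s : Sp k b L, (univ.filter fun F : Maps (k + 1) b L =>
      2 * h ≤ (univ.filter fun i : Fin (b ^ L) => F i ∈
        (univ.filter fun z : Sp k b L => L + 1 ≤ ∑ c, agr b (L + 1) (z c) (s c))).card).card * b ^ h ≤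
      b ^ ((L + 1) * (k + 1) * b ^ L) := by
    intro s
    set Q := (univ.filter fun z : Sp k b L => L + 1 ≤ ∑ c, agr b (L + 1) (z c) (s c)) with hQ
    have hQc : Q.card ≤ (L + 2) ^ k * b ^ ((L + 1) * k) := card_Q hc k b L hb1 s
    have h1 := card_many (κ := Fin (b ^ L)) (S := Sp k b L) Q (2 * h)
    rw [Fintype.card_fin] at h1
    refine (Nat.mul_le_mul_right _ h1).trans ?_
    split_ifs with hm
    · have h3 : b ^ L * Q.card * b ≤ (L + 2) ^ k * Fintype.card (Sp k b L) := by
        calc b ^ L * Q.card * b ≤ b ^ L * ((L + 2) ^ k * b ^ ((L + 1) * k)) * b :=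
              Nat.mul_le_mul_right _ (Nat.mul_le_mul_left _ hQc)
          _ = (L + 2) ^ k * b ^ ((L + 1) * (k + 1)) := by ring
          _ = _ := by rw [hScard]
      have h4 : ((L + 2) ^ k) ^ 2 ≤ b := by
        refine le_trans ?_ hb
        rw [← pow_mul]
        calc (L + 2) ^ (k * 2) ≤ (L + (k + 1)) ^ (k * 2) := Nat.pow_le_pow_left (by omega) _
          _ ≤ (L + (k + 1)) ^ (2 * (k + 1)) := Nat.pow_le_pow_right (by omega) (by omega)
      have h5 : (b ^ L * Q.card) ^ (2 * h) * b ^ h ≤ Fintype.card (Sp k b L) ^ (2 * h) := by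
        have e1 : (b ^ L * Q.card) ^ (2 * h) * b ^ h * b ^ h ≤
            Fintype.card (Sp k b L) ^ (2 * h) * b ^ h := by
          calc (b ^ L * Q.card) ^ (2 * h) * b ^ h * b ^ h = (b ^ L * Q.card * b) ^ (2 * h) := by
                rw [mul_pow (b ^ L * Q.card) b, mul_assoc, ← pow_add, ← two_mul]
            _ ≤ ((L + 2) ^ k * Fintype.card (Sp k b L)) ^ (2 * h) := Nat.pow_le_pow_left h3 _
            _ = (((L + 2) ^ k) ^ 2) ^ h * Fintype.card (Sp k b L) ^ (2 * h) := by
                rw [mul_pow, ← pow_mul ((L + 2) ^ k) 2 h]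
            _ ≤ b ^ h * Fintype.card (Sp k b L) ^ (2 * h) :=
                Nat.mul_le_mul_right _ (Nat.pow_le_pow_left h4 _)
            _ = _ := mul_comm _ _
        exact Nat.le_of_mul_le_mul_right e1 (Nat.pow_pos (by omega))
      calc (b ^ L * Q.card) ^ (2 * h) * Fintype.card (Sp k b L) ^ (b ^ L - 2 * h) * b ^ h
          = ((b ^ L * Q.card) ^ (2 * h) * b ^ h) * Fintype.card (Sp k b L) ^ (b ^ L - 2 * h) := by ring
        _ ≤ Fintype.card (Sp k b L) ^ (2 * h) * Fintype.card (Sp k b L) ^ (b ^ L - 2 * h) :=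
            Nat.mul_le_mul_right _ h5
        _ = Fintype.card (Sp k b L) ^ (b ^ L) := by
            rw [← pow_add]
            congr 1
            omega
        _ = b ^ ((L + 1) * (k + 1) * b ^ L) := by rw [hScard, ← pow_mul]
    · rw [zero_mul]
      exact Nat.zero_le _
  -- the union over the positions
  have hsub : (univ.filter fun F : Maps (k + 1) b L => ∃ s : Fin (k + 1) → Fin (b ^ (L + 1)),
      6 * (k + 1) * L + 1 ≤ (univ.filter fun i : Fin (b ^ L) =>
        L + 1 ≤ ∑ c, agr b (L + 1) (F i c) (s c)).card) ⊆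
      univ.biUnion (fun s : Sp k b L => univ.filter fun F : Maps (k + 1) b L =>
      2 * h ≤ (univ.filter fun i : Fin (b ^ L) => F i ∈
        (univ.filter fun z : Sp k b L => L + 1 ≤ ∑ c, agr b (L + 1) (z c) (s c))).card) := by
    intro F hF
    rw [mem_filter] at hF
    obtain ⟨-, s, hs⟩ := hF
    rw [mem_biUnion]
    refine ⟨s, mem_univ _, ?_⟩
    rw [mem_filter]
    refine ⟨mem_univ _, ?_⟩
    have e : (univ.filter fun i : Fin (b ^ L) => F i ∈
        (univ.filter fun z : Sp k b L => L + 1 ≤ ∑ c, agr b (L + 1) (z c) (s c))) =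
        (univ.filter fun i : Fin (b ^ L) => L + 1 ≤ ∑ c, agr b (L + 1) (F i c) (s c)) := by
      refine Finset.filter_congr fun i _ => ?_
      rw [mem_filter]
      exact ⟨fun h => h.2, fun h => ⟨mem_univ _, h⟩⟩
    rw [e]
    omega
  have hfin : (univ.filter fun F : Maps (k + 1) b L => ∃ s : Fin (k + 1) → Fin (b ^ (L + 1)),
      6 * (k + 1) * L + 1 ≤ (univ.filter fun i : Fin (b ^ L) =>
        L + 1 ≤ ∑ c, agr b (L + 1) (F i c) (s c)).card).card * b ^ h ≤
      b ^ ((L + 1) * (k + 1)) * b ^ ((L + 1) * (k + 1) * b ^ L) := by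
    refine (Nat.mul_le_mul_right _ ((card_le_card hsub).trans card_biUnion_le)).trans ?_
    rw [Finset.sum_mul]
    refine (Finset.sum_le_sum fun s _ => hone s).trans ?_
    rw [sum_const, card_univ, smul_eq_mul, hScard]
  have e1 : b ^ h = b ^ (2 * L) * b ^ ((L + 1) * (k + 1)) := by rw [hh, pow_add]
  rw [e1, ← mul_assoc, mul_comm (b ^ ((L + 1) * (k + 1))) (b ^ ((L + 1) * (k + 1) * b ^ L))] at hfin
  have h6 := Nat.le_of_mul_le_mul_right hfin (Nat.pow_pos (by omega))
  refine le_trans (le_of_eq ?_) h6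
  congr 2

end Pool.Agent.Helper71.SN.PkBAD
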